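import Mathlib
import Pool.Agent.Lib.MP_234ff2_co.IP.All25

/-!
Geometric thickness of the Cartesian powers of the icosahedron: lower bound 41 t / 48.
-/

set_option autoImplicit false

namespace Pool.Agent.Results.MP_234ff2_co.LayerRatio

open Pool.Agent.IP25

/-- If the t-th Cartesian power of the icosahedron (t ≥ 1) has a geometric k-layered drawing,
then 41 t < 48 k. -/
theorem result : ∀ (t k : ℕ), 1 ≤ t →
    (∃ (P : (Fin t → Fin 12) → ℝ × ℝ) (c : Sym2 (Fin t → Fin 12) → Fin k),
      LayeredDrawing (cartPow ico t) k P c) →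
    41 * t < 48 * k :=
  fun t k ht h => (stFin t k ht h).1

end Pool.Agent.Results.MP_234ff2_co.LayerRatio
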