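import Mathlib
import Pool.Agent.Lib.MP_234ff2_co.IP.All25

/-!
Geometric thickness of the Cartesian powers of the icosahedron: a geometric k-layered drawing
of the t-th power with k < t forces 11 t + 1 < 13 k, which no k < t satisfies for t ≤ 7.
-/

set_option autoImplicit false

namespace Pool.Agent.Results.MP_234ff2_co.SevenFactors

open Pool.Agent.IP25

/-- If the t-th Cartesian power of the icosahedron has a geometric k-layered drawing and k < t,
then 11 t + 1 < 13 k. In particular k < t is impossible for t ≤ 7. -/
theorem result : ∀ (t k : ℕ), 1 ≤ t →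
    (∃ (P : (Fin t → Fin 12) → ℝ × ℝ) (c : Sym2 (Fin t → Fin 12) → Fin k),
      LayeredDrawing (cartPow ico t) k P c) →
    k < t → 7 < t ∧ 11 * t + 1 < 13 * k := by
  intro t k ht h hk
  have h1 := stFin t k ht h
  refine ⟨?_, h1.2.1 hk⟩
  by_contra hcon
  have := h1.2.2 (by omega)
  omega

end Pool.Agent.Results.MP_234ff2_co.SevenFactors
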